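import Pool.Agent.H736.EN.Fin
import Pool.Agent.H736.EN.Grp

/-!
# The left translation action on closed subsets need not be universal

`MP_2b70d6_lc`, Q1, full negative answer.  There is an infinite Polish group `G` (countable and
discrete, finitely generated, residually finite, torsion) and a Borel `G`-space, namely the shift of
`G` on `ℝ^G`, whose orbit equivalence relation is not Borel reducible (a fortiori it does not Borel
e.r.-embed) to the orbit equivalence relation of the left translation action of `G` on the Effros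
Borel space of closed subsets of `G`.
-/

set_option autoImplicit false

open MeasureTheory TopologicalSpace

namespace Pool.Agent.Results.MP_2b70d6_lc.LeftActionNotUniversal

/-- `(X, b)` is a Borel `G`-space: `b` is an action of `G` on `X`, jointly Borel as a map
`G × X → X`, where `G` has its Borel σ-algebra. -/
structure BorelGSpace (G : Type) [Group G] [TopologicalSpace G] (X : Type) [MeasurableSpace X]
    (b : G → X → X) : Prop where
  one : ∀ x, b 1 x = x
  mul : ∀ g h x, b (g * h) x = b g (b h x)
  borel : @Measurable (G × X) X (@Prod.instMeasurableSpace G X (borel G) inferInstance)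
    inferInstance (fun q => b q.1 q.2)

/-- the orbit equivalence relation of an action -/
def OrbRel {G X : Type} (b : G → X → X) (x y : X) : Prop := ∃ g : G, b g x = y

/-- the Effros Borel structure on the set of closed subsets of `G` -/
@[reducible] def effros (G : Type) [TopologicalSpace G] : MeasurableSpace (Closeds G) :=
  MeasurableSpace.generateFrom
    {A | ∃ U : Set G, IsOpen U ∧ A = {F : Closeds G | ((F : Set G) ∩ U).Nonempty}}

/-- left translation `F ↦ gF = {g h : h ∈ F}` of closed subsets of `G` -/
def leftAct {G : Type} [Group G] [TopologicalSpace G] [IsTopologicalGroup G] (g : G)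
    (F : Closeds G) : Closeds G :=
  ⟨(fun h => g * h) '' (F : Set G), (Homeomorph.mulLeft g).isClosedMap _ F.isClosed⟩

/-- `E` is Borel reducible to `E'` -/
def BorelReduces {X Y : Type} (mX : MeasurableSpace X) (mY : MeasurableSpace Y)
    (E : X → X → Prop) (E' : Y → Y → Prop) : Prop :=
  ∃ f : X → Y, @Measurable X Y mX mY f ∧ ∀ x y, E x y ↔ E' (f x) (f y)

/-- `E` Borel e.r.-embeds into `E'`: an injective Borel reduction -/
def BorelEmbeds {X Y : Type} (mX : MeasurableSpace X) (mY : MeasurableSpace Y)
    (E : X → X → Prop) (E' : Y → Y → Prop) : Prop :=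
  ∃ f : X → Y, @Measurable X Y mX mY f ∧ Function.Injective f ∧ ∀ x y, E x y ↔ E' (f x) (f y)

/-- the relation `E_a` of the left action of `G` on the Effros Borel space of closed subsets of `G`
is universal for the orbit equivalence relations of Borel `G`-spaces -/
def LeftActionUniversal (G : Type) [Group G] [TopologicalSpace G] [IsTopologicalGroup G] : Prop :=
  ∀ (X : Type) [MeasurableSpace X] [StandardBorelSpace X] (b : G → X → X), BorelGSpace G X b →
    BorelEmbeds (inferInstance : MeasurableSpace X) (effros G) (OrbRel b)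
      (OrbRel (leftAct : G → Closeds G → Closeds G))

open Pool.Agent.H656.DC Pool.Agent.H736.EN in
theorem core (G : Type) [Group G] [Countable G] [TopologicalSpace G] [DiscreteTopology G]
    [IsTopologicalGroup G] (hG : RTM 67 G) (S : Finset G) (C : ℝ) (hT : HasTC G S C) :
    ∃ b : G → (G → ℝ) → (G → ℝ), BorelGSpace G (G → ℝ) b ∧
        ¬ BorelReduces (inferInstance : MeasurableSpace (G → ℝ)) (effros G) (OrbRel b)
          (OrbRel (leftAct : G → Closeds G → Closeds G)) := by
  refine ⟨shift, ⟨shift_one, shift_mul, ?_⟩, ?_⟩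
  · intro s hs
    have h1 : (fun q : G × (G → ℝ) => shift q.1 q.2) ⁻¹' s =
        ⋃ g : G, (Prod.fst ⁻¹' {g}) ∩ (Prod.snd ⁻¹' (shift g ⁻¹' s)) := by
      ext ⟨g, x⟩
      simp
    rw [h1]
    let _ : MeasurableSpace G := borel G
    have : BorelSpace G := ⟨rfl⟩
    refine MeasurableSet.iUnion fun g => ?_
    apply MeasurableSet.inter
    · exact measurable_fst (measurableSet_singleton g)
    · apply measurable_snd
      have hsg : Measurable (shift g : (G → ℝ) → (G → ℝ)) := by
        apply measurable_pi_lambda
        intro h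
        exact measurable_pi_apply (g⁻¹ * h)
      exact hsg hs
  · rintro ⟨f, hf, hred⟩
    have hfact : Fact (Nat.Prime 67) := ⟨by norm_num⟩
    have hmemL : ∀ (h k : G) (F : Closeds G), k ∈ leftAct h F ↔ h⁻¹ * k ∈ F := by
      intro h k F
      constructor
      · rintro ⟨u, hu, rfl⟩
        simpa using hu
      · intro hk
        exact ⟨h⁻¹ * k, hk, by simp⟩
    refine noRed 67 G hG S C hT (fun x => (fun h => h ∈ f x : G → Prop)) ⟨?_, ?_, ?_⟩
    · apply measurable_pi_lambda
      intro h
      apply measurableSet_setOfPred.1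
      have h1 : {x : G → ℝ | h ∈ f x} = f ⁻¹' {F : Closeds G | ((F : Set G) ∩ {h}).Nonempty} := by
        ext x
        simp
      rw [h1]
      apply hf
      apply MeasurableSpace.measurableSet_generateFrom
      exact ⟨{h}, isOpen_discrete _, rfl⟩
    · intro g x
      obtain ⟨h, hh⟩ := (hred x (shift g x)).1 ⟨g, rfl⟩
      refine ⟨h, ?_⟩
      funext k
      rw [smul_ShP]
      show (k ∈ f (shift g x)) = (h⁻¹ * k ∈ f x)
      rw [← hh]
      exact propext (hmemL h k _)
    · rintro x x' ⟨h, hh⟩
      obtain ⟨g, hg⟩ := (hred x x').2 ⟨h, by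
        apply Closeds.ext
        ext k
        have h2 := congrFun hh k
        rw [smul_ShP] at h2
        have h3 : (k ∈ f x') = (h⁻¹ * k ∈ f x) := h2
        show k ∈ leftAct h (f x) ↔ k ∈ f x'
        rw [h3]
        exact hmemL h k _⟩
      exact ⟨g, hg.symm⟩

/-- **Negative answer to Q1 of MP_2b70d6_lc.** -/
theorem result :
    (¬ ∀ (G : Type) [Group G] [TopologicalSpace G] [IsTopologicalGroup G] [PolishSpace G]
      [Infinite G], LeftActionUniversal G) ∧
    ∃ (G : Type) (_ : Group G) (_ : TopologicalSpace G) (_ : IsTopologicalGroup G),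
      PolishSpace G ∧ Infinite G ∧ Countable G ∧ DiscreteTopology G ∧ Group.FG G ∧
      (∀ g : G, IsOfFinOrder g) ∧
      (∀ g : G, g ≠ 1 → ∃ K : Subgroup G, K.Normal ∧ K.index ≠ 0 ∧ g ∉ K) ∧
      ∃ b : G → (G → ℝ) → (G → ℝ), BorelGSpace G (G → ℝ) b ∧
        ¬ BorelReduces (inferInstance : MeasurableSpace (G → ℝ)) (effros G) (OrbRel b)
          (OrbRel (leftAct : G → Closeds G → Closeds G)) := by
  obtain ⟨G, iG, iC, hG, S, C, hT⟩ := Pool.Agent.H736.EN.group
  let iT : TopologicalSpace G := ⊥
  have iD : DiscreteTopology G := ⟨rfl⟩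
  have iTG : IsTopologicalGroup G := inferInstance
  have iP : PolishSpace G := inferInstance
  have hinf : Infinite G := hG.inf
  have hp : (0 : ℕ) < 67 := by norm_num
  have hfact : Fact (Nat.Prime 67) := ⟨by norm_num⟩
  obtain ⟨b, hb, hb'⟩ := core G hG S C hT
  refine ⟨?_, G, iG, iT, iTG, iP, hinf, iC, iD, hG.fg, Pool.Agent.H736.EN.tors G hG, ?_, b, hb, hb'⟩
  · intro hall
    obtain ⟨f, hf, -, hf'⟩ := hall G (G → ℝ) b hb
    exact hb' ⟨f, hf, hf'⟩
  · intro g hg
    obtain ⟨K, hK, ⟨k, hk⟩, hgK⟩ := hG.resp g hg
    exact ⟨K, hK, by rw [hk]; positivity, hgK⟩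

end Pool.Agent.Results.MP_2b70d6_lc.LeftActionNotUniversal
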